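import Pool.Agent.Helper4.PQ0.St
import Pool.Agent.Helper16.OS.M_TWA

/-!
# Project PQS, module THF: no twists of order `p` in the second case
-/

set_option autoImplicit false

namespace Pool.Agent.Helper78.PQ0

open Matrix ComplexConjugate Pool.Agent.Helper94.YF Pool.Agent.Helper94.YG
open Pool.Agent.Helper89.OS hiding PD Cx Blk B0 Orb StXA StXB StXC StXE StCGR StISO StBLK StAMG StHEC StSTL StMZZ StDRE StTSU
open Pool.Agent.Helper89.OC hiding Ks gX OB Lk StORB StTS2 StLKD StTAN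
open Pool.Agent.Helper4.PQ0
open Pool.Agent.Helper16.OS (TWA_cast TWA_unit TWA_geom TWA_T)

/-- powers with exponents modulo `p ^ 2` -/
noncomputable def E {p : ℕ} (θ : ℂ) (v : ZMod (p ^ 2)) : ℂ := θ ^ v.val

section

variable {p : ℕ} [NeZero (p ^ 2)] {θ : ℂ}

theorem E_add (h : θ ^ (p ^ 2) = 1) (v w : ZMod (p ^ 2)) : E θ (v + w) = E θ v * E θ w := by
  unfold E
  rw [ZMod.val_add, ← pow_eq_pow_mod _ h, pow_add]

omit [NeZero (p ^ 2)] in
theorem E_zero : E θ (0 : ZMod (p ^ 2)) = 1 := by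
  unfold E
  rw [ZMod.val_zero, pow_zero]

theorem E_nat (h : θ ^ (p ^ 2) = 1) (v : ZMod (p ^ 2)) (n : ℕ) :
    E θ ((n : ZMod (p ^ 2)) * v) = (E θ v) ^ n := by
  induction n with
  | zero => rw [Nat.cast_zero, zero_mul, E_zero, pow_zero]
  | succ n ih => rw [Nat.cast_succ, add_mul, one_mul, E_add h, ih, pow_succ]

theorem E_neg (h : θ ^ (p ^ 2) = 1) (v : ZMod (p ^ 2)) : E θ (-v) = (E θ v)⁻¹ := by
  refine eq_inv_of_mul_eq_one_left ?_
  rw [← E_add h, neg_add_cancel, E_zero]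

omit [NeZero (p ^ 2)] in
theorem E_one (hp : p.Prime) : E θ (1 : ZMod (p ^ 2)) = θ := by
  unfold E
  have h1 : 1 < p ^ 2 := Nat.one_lt_pow two_ne_zero hp.one_lt
  have : Fact (1 < p ^ 2) := ⟨h1⟩
  rw [ZMod.val_one, pow_one]

theorem E_p (hp : p.Prime) (h : θ ^ (p ^ 2) = 1) (v : ZMod (p ^ 2)) :
    E θ ((p : ZMod (p ^ 2)) * v) = (θ ^ p) ^ v.val := by
  have h1 : (p : ZMod (p ^ 2)) * v = ((v.val : ℕ) : ZMod (p ^ 2)) * ((p : ZMod (p ^ 2)) * 1) := by
    rw [ZMod.natCast_zmod_val]; ring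
  rw [h1, E_nat h, E_nat h, E_one hp]

omit [NeZero (p ^ 2)] in
theorem p_sq : (p : ZMod (p ^ 2)) ^ 2 = 0 := by
  have := ZMod.natCast_self (p ^ 2)
  exact_mod_cast this

/-- the unit `1 + p r` -/
def ga (r : ZMod (p ^ 2)) : (ZMod (p ^ 2))ˣ where
  val := 1 + p * r
  inv := 1 - p * r
  val_inv := by linear_combination (-r ^ 2) * (p_sq (p := p))
  inv_val := by linear_combination (-r ^ 2) * (p_sq (p := p))

omit [NeZero (p ^ 2)] in
theorem ga_val (r : ZMod (p ^ 2)) : ((ga r : (ZMod (p ^ 2))ˣ) : ZMod (p ^ 2)) = 1 + p * r := rfl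

omit [NeZero (p ^ 2)] in
theorem ga_mul (r s : ZMod (p ^ 2)) : ga r * ga s = ga (r + s) := by
  refine Units.ext ?_
  rw [Units.val_mul, ga_val, ga_val, ga_val]
  linear_combination (r * s) * (p_sq (p := p))

omit [NeZero (p ^ 2)] in
theorem ga_inv (r : ZMod (p ^ 2)) : (ga r)⁻¹ = ga (-r) := by
  refine Units.ext ?_
  show (1 : ZMod (p ^ 2)) - p * r = 1 + p * (-r)
  ring

omit [NeZero (p ^ 2)] in
theorem ga_zero : ga (0 : ZMod (p ^ 2)) = 1 := by
  refine Units.ext ?_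
  rw [ga_val, Units.val_one]; ring

/-- reduction modulo `p` -/
noncomputable def cs (p : ℕ) : ZMod (p ^ 2) →+* ZMod p := ZMod.castHom (dvd_pow_self p two_ne_zero) (ZMod p)

omit [NeZero (p ^ 2)] in
theorem cs_zero (hp : p.Prime) (x : ZMod (p ^ 2)) : cs p x = 0 ↔ p ∣ x.val :=
  TWA_cast hp two_ne_zero x

theorem cs_mul (hp : p.Prime) {x : ZMod (p ^ 2)} (h : cs p x = 0) :
    ∃ r : ZMod (p ^ 2), x = (p : ZMod (p ^ 2)) * r := by
  rw [cs_zero hp] at h
  obtain ⟨r, hr⟩ := h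
  refine ⟨(r : ZMod (p ^ 2)), ?_⟩
  rw [← ZMod.natCast_zmod_val x, hr]
  push_cast
  ring

theorem pow_one_iff (hp : p.Prime) (h : θ ^ (p ^ 2) = 1) (hθ : θ ^ p ≠ 1) (v : ZMod (p ^ 2)) :
    E θ ((p : ZMod (p ^ 2)) * v) = 1 ↔ cs p v = 0 := by
  rw [E_p hp h, cs_zero hp]
  have hF : Fact p.Prime := ⟨hp⟩
  have h1 : orderOf (θ ^ p) = p := by
    refine orderOf_eq_prime ?_ hθ
    rw [← pow_mul, ← sq]
    exact h
  rw [← orderOf_dvd_iff_pow_eq_one, h1]

end

variable {I : Type} [Fintype I] [DecidableEq I] {p : ℕ}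

theorem three_le (X : PD I p 2) : 3 ≤ p := by
  have h2 := X.prime.two_le
  rcases Nat.lt_or_ge p 3 with h | h
  · exfalso
    have e : p = 2 := by omega
    have := X.p_odd
    rw [e] at this
    exact absurd this (by decide)
  · exact h

/-- fixed by all `ga r`, twist of order dividing `p`, in the block -/
structure Fx (X : PD I p 2) (k : I) : Prop where
  y : X.y k ≠ 0
  tp : X.t k ^ p = 1
  fx : ∀ r : ZMod (p ^ 2), X.pi (ga r) k = k

theorem t_ga [NeZero (p ^ 2)] (X : PD I p 2) {k : I} (hk : X.t k ^ p = 1) (r : ZMod (p ^ 2)) :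
    X.t (X.pi (ga r) k) = X.t k := by
  have hp := X.prime
  rw [X.pi_t]
  show E (X.t k) (((ga r : (ZMod (p ^ 2))ˣ) : ZMod (p ^ 2)) ^ 2) = X.t k
  rw [ga_val]
  have e : (1 + (p : ZMod (p ^ 2)) * r) ^ 2 = 1 + p * (2 * r + p * r ^ 2) := by ring
  rw [e, E_add (X.t_pow k), E_one hp, E_p hp (X.t_pow k), hk, one_pow, mul_one]

/-- part (a) -/
theorem fix_a [NeZero (p ^ 2)] (X : PD I p 2) (M : M1 X) {k : I} (hy : X.y k ≠ 0)
    (hp1 : X.t k ^ p = 1) (h1 : X.t k ≠ 1) (r0 : ZMod (p ^ 2)) : X.pi (ga r0) k = k := by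
  classical
  by_contra hne
  have hp := X.prime
  have hp3 := three_le X
  -- the stabilizer
  have hst : ∀ d : ZMod (p ^ 2), X.pi (ga d) k = k → ∀ n : ℕ, X.pi (ga ((n : ZMod (p ^ 2)) * d)) k = k := by
    intro d hd n
    induction n with
    | zero => rw [Nat.cast_zero, zero_mul, ga_zero, X.pi_one]
    | succ n ih => rw [Nat.cast_succ, add_mul, one_mul, ← ga_mul, X.pi_mul, hd, ih]
  have hinj : Set.InjOn (fun r : ℕ => X.pi (ga (r : ZMod (p ^ 2))) k) (Finset.range p : Set ℕ) := by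
    have key : ∀ a b : ℕ, a < b → b < p →
        X.pi (ga (a : ZMod (p ^ 2))) k ≠ X.pi (ga (b : ZMod (p ^ 2))) k := by
      intro a b hab hb h
      have hd : X.pi (ga ((b - a : ℕ) : ZMod (p ^ 2))) k = k := by
        have e : ga ((b - a : ℕ) : ZMod (p ^ 2)) =
            (ga (a : ZMod (p ^ 2)))⁻¹ * ga (b : ZMod (p ^ 2)) := by
          rw [ga_inv, ga_mul, Nat.cast_sub hab.le]
          congr 1
          ring
        rw [e, X.pi_mul, ← h, ← X.pi_mul, inv_mul_cancel, X.pi_one]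
      have hu : IsUnit ((b - a : ℕ) : ZMod (p ^ 2)) := by
        rw [ZMod.isUnit_iff_coprime]
        refine Nat.Coprime.pow_right 2 ?_
        refine ((Nat.Prime.coprime_iff_not_dvd hp).2 ?_).symm
        intro hdv
        have := Nat.le_of_dvd (by omega) hdv
        omega
      obtain ⟨e, he⟩ := hu
      have := hst _ hd ((r0 * ((e⁻¹ : (ZMod (p ^ 2))ˣ) : ZMod (p ^ 2))).val)
      rw [ZMod.natCast_zmod_val, ← he, mul_assoc, Units.inv_mul, mul_one] at this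
      exact hne this
    intro a ha b hb h
    rw [Finset.mem_coe, Finset.mem_range] at ha hb
    rcases lt_trichotomy a b with h2 | h2 | h2
    · exact absurd h (key a b h2 hb)
    · exact h2
    · exact absurd h.symm (key b a h2 ha)
  obtain ⟨u, hu1, hu2, hu3⟩ := M.u
  have hup : (p : ℤ) ≤ u := by
    have e := hu1 (X.t k) hp1 h1
    have h3 : ((∑ i ∈ (Finset.range p).image (fun r : ℕ => X.pi (ga (r : ZMod (p ^ 2))) k),
        X.y i ^ 2 : ℤ)) ≤ ∑ i, if X.t i = X.t k then X.y i ^ 2 else 0 := by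
      rw [← Finset.sum_filter]
      refine Finset.sum_le_sum_of_subset_of_nonneg ?_ (fun i _ _ => sq_nonneg _)
      intro i hi
      obtain ⟨r, -, rfl⟩ := Finset.mem_image.1 hi
      rw [Finset.mem_filter]
      exact ⟨Finset.mem_univ _, t_ga X hp1 _⟩
    have h4 : (∑ i ∈ (Finset.range p).image (fun r : ℕ => X.pi (ga (r : ZMod (p ^ 2))) k),
        X.y i ^ 2 : ℤ) = p * X.y k ^ 2 := by
      rw [Finset.sum_image hinj]
      rw [Finset.sum_congr rfl (fun r _ => by rw [X.pi_y]), Finset.sum_const, Finset.card_range,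
        nsmul_eq_mul]
    rw [h4] at h3
    have h5 : (1 : ℤ) ≤ X.y k ^ 2 := by
      have : 0 < X.y k ^ 2 := by positivity
      omega
    have h6 : (p : ℤ) * 1 ≤ p * X.y k ^ 2 := mul_le_mul_of_nonneg_left h5 (by positivity)
    linarith
  have hM : (1 : ℤ) ≤ ∑ i, if X.t i = 1 then X.y i ^ 2 else 0 := by
    have h2 : ∃ i, X.y i ≠ 0 ∧ X.t i = 1 := by
      by_contra hno
      push Not at hno
      have h3 : ∑ i, X.y i * (X.kap i : ℤ) = 0 := by
        refine Finset.sum_eq_zero fun i _ => ?_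
        by_cases h4 : X.y i = 0
        · rw [h4, zero_mul]
        · have h5 : X.kap i = 0 := by
            by_contra h6
            exact hno i h4 (X.kap_t i h6)
          rw [h5]; simp
      rw [X.kap_y] at h3
      have : (p : ℤ) ≠ 0 := by exact_mod_cast hp.ne_zero
      exact this h3
    obtain ⟨i, hi, hti⟩ := h2
    have h3 : (if X.t i = 1 then X.y i ^ 2 else 0) ≤ ∑ i, if X.t i = 1 then X.y i ^ 2 else 0 := by
      refine Finset.single_le_sum (f := fun i => if X.t i = 1 then X.y i ^ 2 else (0 : ℤ))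
        (fun j _ => ?_) (Finset.mem_univ i)
      show (0 : ℤ) ≤ if X.t j = 1 then X.y j ^ 2 else 0
      split_ifs
      · exact sq_nonneg _
      · exact le_rfl
    rw [if_pos hti] at h3
    have h5 : (1 : ℤ) ≤ X.y i ^ 2 := by
      have : 0 < X.y i ^ 2 := by positivity
      omega
    linarith
  have hp3' : (3 : ℤ) ≤ p := by exact_mod_cast hp3
  rw [hu2] at hM
  -- `2 (u + p x) = p (p + 1) - 2 (p - 1) u`
  have e1 : 2 * (u + p * X.y X.o) = p * (p + 1) - 2 * (p - 1) * u := by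
    have : 2 * X.y X.o = p + 1 - 2 * u := by linarith
    calc 2 * (u + p * X.y X.o) = 2 * u + p * (2 * X.y X.o) := by ring
      _ = _ := by rw [this]; ring
  have h7 : ((p : ℤ) - 1) * p ≤ (p - 1) * u := mul_le_mul_of_nonneg_left hup (by linarith)
  nlinarith [h7, e1, hM, hp3']

theorem ga_of (hp : p.Prime) [NeZero (p ^ 2)] {c : (ZMod (p ^ 2))ˣ}
    (h : cs p (c : ZMod (p ^ 2)) = 1) : ∃ r, c = ga r := by
  obtain ⟨r, hr⟩ := cs_mul hp (x := (c : ZMod (p ^ 2)) - 1) (by rw [map_sub, h, map_one, sub_self])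
  exact ⟨r, Units.ext (by rw [ga_val, ← hr]; ring)⟩

/-- the sum over the units for the quotient of the twists -/
noncomputable def Aw [NeZero (p ^ 2)] (X : PD I p 2) (j l : I) : ℂ :=
  ∑ w : (ZMod (p ^ 2))ˣ, (X.t l * (X.t j)⁻¹) ^ (w : ZMod (p ^ 2)).val

open Classical in
/-- the sum which does not depend on `k'` -/
noncomputable def Cw [NeZero (p ^ 2)] (X : PD I p 2) (j : I) : ℂ :=
  ∑ l, if X.y l ≠ 0 ∧ X.t l ^ p = X.t j ^ p then Aw X j l * X.s l j else 0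

theorem neg_one_fix [NeZero (p ^ 2)] (X : PD I p 2) (M : M1 X) {j : I} (hj : X.y j ≠ 0)
    (hjt : X.t j ^ p ≠ 1) : X.pi (-1) j = j := by
  have hp := X.prime
  refine (M.uni j (X.pi (-1) j) hj hjt (by rw [X.pi_y]; exact hj) ?_).symm
  rw [X.pi_t]
  show E (X.t j) ((((-1 : (ZMod (p ^ 2))ˣ)) : ZMod (p ^ 2)) ^ 2) = X.t j
  rw [Units.val_neg, Units.val_one, neg_one_sq, E_one hp]

theorem s_eq [NeZero (p ^ 2)] (X : PD I p 2) (M : M1 X) {j k l : I} (hj : X.y j ≠ 0)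
    (hjt : X.t j ^ p ≠ 1) (hF : Fx X k) (hl : X.y l ≠ 0) (hlt : X.t l ^ p = X.t j ^ p) :
    X.s k l = X.s k j := by
  have hp := X.prime
  have hFp : Fact p.Prime := ⟨hp⟩
  obtain ⟨c, rfl⟩ := M.orb j l hj hjt hl (by rw [hlt]; exact hjt)
  have h1 : X.t (X.pi c j) = E (X.t j) ((c : ZMod (p ^ 2)) ^ 2) := X.pi_t c j
  have h2 : E (X.t j) ((p : ZMod (p ^ 2)) * ((c : ZMod (p ^ 2)) ^ 2 - 1)) = 1 := by
    have e : (p : ZMod (p ^ 2)) * ((c : ZMod (p ^ 2)) ^ 2 - 1) =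
        (p : ZMod (p ^ 2)) * (c : ZMod (p ^ 2)) ^ 2 + -((p : ZMod (p ^ 2)) * 1) := by ring
    rw [e, E_add (X.t_pow j), E_neg (X.t_pow j), E_nat (X.t_pow j), E_nat (X.t_pow j), E_one hp,
      ← h1, hlt]
    refine mul_inv_cancel₀ ?_
    intro h0
    have h3 := X.t_pow j
    rw [sq, pow_mul, h0, zero_pow hp.ne_zero] at h3
    exact zero_ne_one h3
  rw [pow_one_iff hp (X.t_pow j) hjt] at h2
  have h3 : (cs p (c : ZMod (p ^ 2)) - 1) * (cs p (c : ZMod (p ^ 2)) + 1) = 0 := by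
    rw [map_sub, map_pow, map_one] at h2
    have e : (cs p (c : ZMod (p ^ 2)) - 1) * (cs p (c : ZMod (p ^ 2)) + 1) =
        cs p (c : ZMod (p ^ 2)) ^ 2 - 1 := by ring
    rw [e, h2]
  have hga : ∀ r, X.s k (X.pi (ga r) j) = X.s k j := by
    intro r
    rw [← X.pi_s, hF.fx]
  rcases mul_eq_zero.1 h3 with h4 | h4
  · obtain ⟨r, hr⟩ := ga_of hp (sub_eq_zero.1 h4)
    rw [hr, hga]
  · have h5 : cs p ((-c : (ZMod (p ^ 2))ˣ) : ZMod (p ^ 2)) = 1 := by
      rw [Units.val_neg, map_neg, eq_neg_of_add_eq_zero_left h4, neg_neg]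
    obtain ⟨r, hr⟩ := ga_of hp h5
    have h6 : c = ga r * (-1) := by rw [← hr, neg_mul_neg, mul_one]
    rw [h6, X.pi_mul, neg_one_fix X M hj hjt, hga]

theorem t_ne (X : PD I p 2) (j : I) : X.t j ≠ 0 := by
  intro h
  have h3 := X.t_pow j
  rw [h, zero_pow (pow_ne_zero _ X.prime.ne_zero)] at h3
  exact zero_ne_one h3

theorem left_b [NeZero (p ^ 2)] (X : PD I p 2) {Q : ℂ → Prop} (hB : Blk X Q) (M : M1 X) {j k : I}
    (hj : X.y j ≠ 0) (hjt : X.t j ^ p ≠ 1) (hF : Fx X k) :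
    ∑ l, Aw X j l * (X.s k l * X.s l j) = X.s k j * Cw X j := by
  classical
  have hp := X.prime
  unfold Cw
  rw [Finset.mul_sum]
  refine Finset.sum_congr rfl fun l _ => ?_
  by_cases hl : X.y l = 0
  · rw [hB.sup k l hF.y hl, if_neg (fun h => h.1 hl)]
    ring
  by_cases hlt : X.t l ^ p = X.t j ^ p
  · rw [if_pos ⟨hl, hlt⟩, s_eq X M hj hjt hF hl hlt]
    ring
  · rw [if_neg (fun h => hlt h.2)]
    have h1 : Aw X j l = 0 := by
      unfold Aw
      have h2 : (X.t l * (X.t j)⁻¹) ^ (p ^ 2) = 1 := by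
        rw [mul_pow, inv_pow, X.t_pow, X.t_pow]; norm_num
      have h3 : (X.t l * (X.t j)⁻¹) ^ p ≠ 1 := by
        intro h
        rw [mul_pow, inv_pow, mul_inv_eq_one₀ (pow_ne_zero _ (t_ne X j))] at h
        exact hlt h
      have h4 : X.t l * (X.t j)⁻¹ ≠ 1 := by
        intro h
        apply h3
        rw [h, one_pow]
      rw [TWA_T hp _ h2, if_neg h3, if_neg h4, sub_self]
    rw [h1]
    ring

/-- the summand on the right side -/
noncomputable def fw (X : PD I p 2) (j k : I) (w : (ZMod (p ^ 2))ˣ) : ℂ :=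
  E (X.t j) (-(w : ZMod (p ^ 2))) * ((E (X.t k) (-((w⁻¹ : (ZMod (p ^ 2))ˣ) : ZMod (p ^ 2))) *
    E (X.t j) (-((w⁻¹ : (ZMod (p ^ 2))ˣ) : ZMod (p ^ 2)))) * X.s k (X.pi w⁻¹ j))

theorem fw_shift [NeZero (p ^ 2)] (X : PD I p 2) {j k : I} (hF : Fx X k) (w : (ZMod (p ^ 2))ˣ)
    (r : ZMod (p ^ 2)) : fw X j k (w * ga r) = fw X j k w *
      E (X.t j) (r * ((p : ZMod (p ^ 2)) * (((w⁻¹ : (ZMod (p ^ 2))ˣ) : ZMod (p ^ 2)) - (w : ZMod (p ^ 2))))) := by
  have hp := X.prime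
  unfold fw
  have e1 : (w * ga r)⁻¹ = ga (-r) * w⁻¹ := by rw [_root_.mul_inv_rev, ga_inv]
  have e2 : ((w * ga r : (ZMod (p ^ 2))ˣ) : ZMod (p ^ 2)) = (w : ZMod (p ^ 2)) * (1 + (p : ZMod (p ^ 2)) * r) := by
    rw [Units.val_mul, ga_val]
  have e3 : (((w * ga r)⁻¹ : (ZMod (p ^ 2))ˣ) : ZMod (p ^ 2)) =
      ((w⁻¹ : (ZMod (p ^ 2))ˣ) : ZMod (p ^ 2)) * (1 - (p : ZMod (p ^ 2)) * r) := by
    rw [e1, Units.val_mul, ga_val]
    ring
  rw [e3, e2, e1, X.pi_mul, ← X.pi_s, hF.fx]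
  set v : ZMod (p ^ 2) := ((w⁻¹ : (ZMod (p ^ 2))ˣ) : ZMod (p ^ 2)) with hv
  have a1 : E (X.t j) (-((w : ZMod (p ^ 2)) * (1 + (p : ZMod (p ^ 2)) * r))) =
      E (X.t j) (-(w : ZMod (p ^ 2))) * E (X.t j) ((p : ZMod (p ^ 2)) * (-(r * (w : ZMod (p ^ 2))))) := by
    rw [← E_add (X.t_pow j)]
    congr 1
    ring
  have a2 : E (X.t k) (-(v * (1 - (p : ZMod (p ^ 2)) * r))) = E (X.t k) (-v) := by
    have : -(v * (1 - (p : ZMod (p ^ 2)) * r)) = -v + (p : ZMod (p ^ 2)) * (r * v) := by ring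
    rw [this, E_add (X.t_pow k), E_p hp (X.t_pow k), hF.tp, one_pow, mul_one]
  have a3 : E (X.t j) (-(v * (1 - (p : ZMod (p ^ 2)) * r))) =
      E (X.t j) (-v) * E (X.t j) ((p : ZMod (p ^ 2)) * (r * v)) := by
    rw [← E_add (X.t_pow j)]
    congr 1
    ring
  have a4 : E (X.t j) (r * ((p : ZMod (p ^ 2)) * (v - (w : ZMod (p ^ 2))))) =
      E (X.t j) ((p : ZMod (p ^ 2)) * (-(r * (w : ZMod (p ^ 2))))) * E (X.t j) ((p : ZMod (p ^ 2)) * (r * v)) := by
    rw [← E_add (X.t_pow j)]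
    congr 1
    ring
  rw [a1, a2, a3, a4]
  ring

open Classical in
/-- number of the units `1 + p r` -/
noncomputable def Nw (p : ℕ) [NeZero (p ^ 2)] : ℕ :=
  ((Finset.univ : Finset ((ZMod (p ^ 2))ˣ)).filter fun w : (ZMod (p ^ 2))ˣ => cs p (w : ZMod (p ^ 2)) = 1).card

theorem right_b [NeZero (p ^ 2)] (X : PD I p 2) (M : M1 X) {j k : I} (hj : X.y j ≠ 0)
    (hjt : X.t j ^ p ≠ 1) (hF : Fx X k) :
    ∑ w, fw X j k w = (Nw p : ℂ) * (fw X j k 1 + fw X j k (-1)) := by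
  classical
  have hp := X.prime
  have hFp : Fact p.Prime := ⟨hp⟩
  have hp0 : (p : ℂ) ≠ 0 := by exact_mod_cast hp.ne_zero
  set S1 := (Finset.univ : Finset ((ZMod (p ^ 2))ˣ)).filter fun w : (ZMod (p ^ 2))ˣ => cs p (w : ZMod (p ^ 2)) = 1
    with hS1
  set S2 := (Finset.univ : Finset ((ZMod (p ^ 2))ˣ)).filter fun w : (ZMod (p ^ 2))ˣ => cs p (w : ZMod (p ^ 2)) = -1
    with hS2
  have hcard : S2.card = S1.card := by
    refine Finset.card_nbij' (fun w => -w) (fun w => -w) ?_ ?_ ?_ ?_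
    · intro w hw
      simp only [hS2, hS1, Finset.coe_filter, Finset.mem_univ, true_and, Set.mem_ofPred_eq] at hw ⊢
      rw [Units.val_neg, map_neg, hw, neg_neg]
    · intro w hw
      simp only [hS2, hS1, Finset.coe_filter, Finset.mem_univ, true_and, Set.mem_ofPred_eq] at hw ⊢
      rw [Units.val_neg, map_neg, hw]
    · intro w _; exact neg_neg w
    · intro w _; exact neg_neg w
  have hgeo : ∀ w : (ZMod (p ^ 2))ˣ, ∑ r ∈ Finset.range p, E (X.t j) ((r : ZMod (p ^ 2)) *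
      ((p : ZMod (p ^ 2)) * (((w⁻¹ : (ZMod (p ^ 2))ˣ) : ZMod (p ^ 2)) - (w : ZMod (p ^ 2))))) =
      if w ∈ S1 ∪ S2 then (p : ℂ) else 0 := by
    intro w
    set v : ZMod (p ^ 2) := ((w⁻¹ : (ZMod (p ^ 2))ˣ) : ZMod (p ^ 2)) - (w : ZMod (p ^ 2)) with hv
    rw [Finset.sum_congr rfl fun r _ => E_nat (X.t_pow j) _ r]
    have h1 : (E (X.t j) ((p : ZMod (p ^ 2)) * v)) ^ p = 1 := by
      rw [E_p hp (X.t_pow j), ← pow_mul, ← pow_mul,
        show p * (v.val * p) = p ^ 2 * v.val by ring, pow_mul, X.t_pow, one_pow]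
    rw [TWA_geom p _ h1]
    have h2 : E (X.t j) ((p : ZMod (p ^ 2)) * v) = 1 ↔ w ∈ S1 ∪ S2 := by
      rw [pow_one_iff hp (X.t_pow j) hjt, Finset.mem_union, hS1, hS2, Finset.mem_filter,
        Finset.mem_filter, hv, map_sub]
      have h3 : cs p ((w⁻¹ : (ZMod (p ^ 2))ˣ) : ZMod (p ^ 2)) * cs p (w : ZMod (p ^ 2)) = 1 := by
        rw [← map_mul, Units.inv_mul, map_one]
      constructor
      · intro h
        rw [sub_eq_zero.1 h] at h3
        have h4 : (cs p (w : ZMod (p ^ 2)) - 1) * (cs p (w : ZMod (p ^ 2)) + 1) = 0 := by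
          linear_combination h3
        rcases mul_eq_zero.1 h4 with h5 | h5
        · exact Or.inl ⟨Finset.mem_univ _, sub_eq_zero.1 h5⟩
        · exact Or.inr ⟨Finset.mem_univ _, eq_neg_of_add_eq_zero_left h5⟩
      · rintro (⟨-, h⟩ | ⟨-, h⟩)
        · rw [h, mul_one] at h3
          rw [h, h3, sub_self]
        · rw [h] at h3
          rw [h]
          linear_combination -h3
    by_cases h : w ∈ S1 ∪ S2
    · rw [if_pos h, if_pos (h2.2 h)]
    · rw [if_neg h, if_neg (fun h' => h (h2.1 h'))]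
  have hmain : (p : ℂ) * ∑ w, fw X j k w = (p : ℂ) * ∑ w ∈ S1 ∪ S2, fw X j k w := by
    have e1 : ∀ r : ℕ, ∑ w, fw X j k (w * ga (r : ZMod (p ^ 2))) = ∑ w, fw X j k w := fun r =>
      Equiv.sum_comp (Equiv.mulRight (ga (r : ZMod (p ^ 2)))) (fw X j k)
    have e2 : (p : ℂ) * ∑ w, fw X j k w =
        ∑ r ∈ Finset.range p, ∑ w, fw X j k (w * ga (r : ZMod (p ^ 2))) := by
      rw [Finset.sum_congr rfl fun r _ => e1 r, Finset.sum_const, Finset.card_range, nsmul_eq_mul]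
    rw [e2, Finset.sum_comm]
    have e3 : ∀ w : (ZMod (p ^ 2))ˣ, ∑ r ∈ Finset.range p, fw X j k (w * ga (r : ZMod (p ^ 2))) =
        if w ∈ S1 ∪ S2 then (p : ℂ) * fw X j k w else 0 := by
      intro w
      rw [Finset.sum_congr rfl fun r _ => fw_shift X hF w _, ← Finset.mul_sum, hgeo w]
      split_ifs
      · ring
      · ring
    rw [Finset.sum_congr rfl fun w _ => e3 w, ← Finset.sum_filter, Finset.mul_sum]
    congr 1
    ext w
    simp
  have hmain2 := mul_left_cancel₀ hp0 hmain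
  have hdis : Disjoint S1 S2 := by
    rw [Finset.disjoint_left]
    intro w h1 h2
    rw [hS1, Finset.mem_filter] at h1
    rw [hS2, Finset.mem_filter] at h2
    have h3 : (2 : ZMod p) = 0 := by linear_combination h1.2.symm.trans h2.2
    have h6 : ((2 : ℕ) : ZMod p) = 0 := by exact_mod_cast h3
    rw [ZMod.natCast_eq_zero_iff] at h6
    have h7 := Nat.le_of_dvd (by norm_num) h6
    have := three_le X
    omega
  have hs1 : ∀ w ∈ S1, fw X j k w = fw X j k 1 := by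
    intro w hw
    rw [hS1, Finset.mem_filter] at hw
    obtain ⟨r, rfl⟩ := ga_of hp hw.2
    have := fw_shift (j := j) X hF 1 r
    rw [one_mul, inv_one, Units.val_one, sub_self, mul_zero, mul_zero, E_zero, mul_one] at this
    exact this
  have hs2 : ∀ w ∈ S2, fw X j k w = fw X j k (-1) := by
    intro w hw
    rw [hS2, Finset.mem_filter] at hw
    have h5 : cs p ((-w : (ZMod (p ^ 2))ˣ) : ZMod (p ^ 2)) = 1 := by
      rw [Units.val_neg, map_neg, hw.2, neg_neg]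
    obtain ⟨r, hr⟩ := ga_of hp h5
    have h6 : w = (-1) * ga r := by rw [← hr, neg_mul_neg, one_mul]
    have h7 : ((-1 : (ZMod (p ^ 2))ˣ))⁻¹ = -1 := by
      refine inv_eq_of_mul_eq_one_right ?_
      rw [neg_mul_neg, one_mul]
    have := fw_shift (j := j) X hF (-1) r
    rw [h7, sub_self, mul_zero, mul_zero, E_zero, mul_one] at this
    rw [h6]
    exact this
  rw [hmain2, Finset.sum_union hdis, Finset.sum_congr rfl hs1, Finset.sum_congr rfl hs2,
    Finset.sum_const, Finset.sum_const, hcard, nsmul_eq_mul, nsmul_eq_mul]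
  show (S1.card : ℂ) * _ + (S1.card : ℂ) * _ = (S1.card : ℂ) * _
  ring

theorem main_b [NeZero (p ^ 2)] (X : PD I p 2) {Q : ℂ → Prop} (hB : Blk X Q) (M : M1 X) {j k : I}
    (hj : X.y j ≠ 0) (hjt : X.t j ^ p ≠ 1) (hF : Fx X k) :
    Cw X j = (p : ℂ) * (Nw p * ((X.t j ^ 2)⁻¹ * (X.t k)⁻¹ + X.t j ^ 2 * X.t k)) := by
  have hp := X.prime
  have h1 : ∀ w : (ZMod (p ^ 2))ˣ, ∑ l, (X.t l * (X.t j)⁻¹) ^ (w : ZMod (p ^ 2)).val *
      (X.s k l * X.s l j) = (p : ℂ) * fw X j k w := by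
    intro w
    have h2 := X.weil w k j
    have h3 : E (X.t j) (-(w : ZMod (p ^ 2))) = (X.t j ^ (w : ZMod (p ^ 2)).val)⁻¹ :=
      E_neg (X.t_pow j) _
    have h4 : ∑ l, (X.t l * (X.t j)⁻¹) ^ (w : ZMod (p ^ 2)).val * (X.s k l * X.s l j) =
        E (X.t j) (-(w : ZMod (p ^ 2))) *
          ∑ l, X.t l ^ (w : ZMod (p ^ 2)).val * (X.s k l * X.s l j) := by
      rw [Finset.mul_sum]
      refine Finset.sum_congr rfl fun l _ => ?_
      rw [h3, mul_pow, inv_pow]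
      ring
    rw [h4, h2]
    unfold fw E
    ring
  have h5 : ∑ l, Aw X j l * (X.s k l * X.s l j) = (p : ℂ) * ∑ w, fw X j k w := by
    rw [Finset.mul_sum, ← Finset.sum_congr rfl fun w _ => h1 w, Finset.sum_comm]
    refine Finset.sum_congr rfl fun l _ => ?_
    unfold Aw
    rw [Finset.sum_mul]
  rw [left_b X hB M hj hjt hF, right_b X M hj hjt hF] at h5
  have h7 : ((-1 : (ZMod (p ^ 2))ˣ))⁻¹ = -1 := by
    refine inv_eq_of_mul_eq_one_right ?_
    rw [neg_mul_neg, one_mul]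
  have f1 : fw X j k 1 = (X.t j ^ 2)⁻¹ * (X.t k)⁻¹ * X.s k j := by
    unfold fw
    rw [inv_one, Units.val_one, E_neg (X.t_pow j), E_neg (X.t_pow k), E_one hp, E_one hp,
      X.pi_one, sq, mul_inv]
    ring
  have f2 : fw X j k (-1) = X.t j ^ 2 * X.t k * X.s k j := by
    unfold fw
    rw [h7, Units.val_neg, Units.val_one, neg_neg, E_one hp, E_one hp, neg_one_fix X M hj hjt]
    ring
  rw [f1, f2] at h5
  have hs : X.s k j ≠ 0 := hB.nz k j hF.y hj
  apply mul_left_cancel₀ hs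
  rw [h5]
  ring

/-- THF -/
theorem hTHF : StTHF := by
  intro I _ _ p X Q hB M k hk hkp
  by_contra hk1
  have hp := X.prime
  have hNZ : NeZero (p ^ 2) := ⟨pow_ne_zero _ hp.ne_zero⟩
  have hFk : Fx X k := ⟨hk, hkp, fun r => fix_a X M hk hkp hk1 r⟩
  have ho : X.y X.o ≠ 0 := by
    intro h
    apply hB.x_nd
    rw [h]
    exact dvd_zero _
  have hFo : Fx X X.o := ⟨ho, by rw [X.t_o, one_pow], fun r => X.pi_o _⟩
  obtain ⟨j, hj, hjt⟩ := X.ex
  have e0 : p ^ (2 - 1) = p := by norm_num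
  rw [e0] at hjt
  have h1 := main_b X hB M hj hjt hFk
  have h2 := main_b X hB M hj hjt hFo
  rw [h1, X.t_o, inv_one, mul_one, mul_one] at h2
  have hp0 : (p : ℂ) ≠ 0 := by exact_mod_cast hp.ne_zero
  have hN : (Nw p : ℂ) ≠ 0 := by
    have : 0 < Nw p := by
      unfold Nw
      refine Finset.card_pos.2 ⟨1, ?_⟩
      rw [Finset.mem_filter]
      exact ⟨Finset.mem_univ _, by rw [Units.val_one, map_one]⟩
    exact_mod_cast this.ne'
  have h3 := mul_left_cancel₀ hN (mul_left_cancel₀ hp0 h2)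
  have hj0 := t_ne X j
  have hk0 := t_ne X k
  have h4 : (X.t k - 1) * (1 - X.t j ^ 4 * X.t k) = 0 := by
    field_simp at h3
    linear_combination -h3
  rcases mul_eq_zero.1 h4 with h5 | h5
  · exact hk1 (sub_eq_zero.1 h5)
  · have h6 : (X.t j ^ p) ^ 4 = 1 := by
      have h7 : X.t j ^ 4 * X.t k = 1 := (sub_eq_zero.1 h5).symm
      have h8 : (X.t j ^ 4 * X.t k) ^ p = 1 := by rw [h7, one_pow]
      rw [mul_pow, hkp, mul_one, ← pow_mul, mul_comm, pow_mul] at h8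
      exact h8
    have h9 : (X.t j ^ p) ^ p = 1 := by
      rw [← pow_mul, ← sq]
      exact X.t_pow j
    have h10 : orderOf (X.t j ^ p) ∣ Nat.gcd 4 p :=
      Nat.dvd_gcd (orderOf_dvd_of_pow_eq_one h6) (orderOf_dvd_of_pow_eq_one h9)
    have h11 : Nat.gcd 4 p = 1 := by
      have : Nat.Coprime (2 ^ 2) p :=
        Nat.Coprime.pow_left 2 ((Nat.coprime_two_left).2 X.p_odd)
      exact this
    rw [h11, Nat.dvd_one, orderOf_eq_one_iff] at h10
    exact hjt h10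

end Pool.Agent.Helper78.PQ0
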